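import Pool.Agent.Helper57.QZ.Stmts2
import Pool.Agent.Helper29.QZ.DG
import Pool.Agent.Helper13.Hall.Divisor

/-!
# Row XD: the mean square of the multiplicative differences of `gX`
-/

set_option autoImplicit false

namespace Pool.Agent.Helper57.QZ

open MeasureTheory Set Filter Topology

namespace S12

lemma bX_zero_of_le (X n : ℕ) (h2 : 2 ≤ n) (hn : n ≤ X) : bX X n = 0 := by
  unfold bX
  have h1 : n.divisors.filter (fun d => d ≤ X) = n.divisors := by
    apply Finset.filter_true_of_mem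
    intro d hd
    exact (Nat.divisor_le hd).trans hn
  rw [h1]
  have h3 : ∑ d ∈ n.divisors, ArithmeticFunction.moebius d = 0 := by
    have h4 := congrArg (fun f : ArithmeticFunction ℤ => f n)
      ArithmeticFunction.moebius_mul_coe_zeta
    simp only [ArithmeticFunction.coe_mul_zeta_apply, ArithmeticFunction.one_apply] at h4
    rw [h4, if_neg (by omega)]
  exact_mod_cast h3

lemma bX_abs (X n : ℕ) : |bX X n| ≤ (n.divisors.card : ℝ) := by
  unfold bX
  refine (Finset.abs_sum_le_sum_abs _ _).trans ?_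
  calc ∑ d ∈ n.divisors.filter (fun d => d ≤ X), |((ArithmeticFunction.moebius d : ℤ) : ℝ)|
      ≤ ∑ d ∈ n.divisors.filter (fun d => d ≤ X), (1:ℝ) := by
        apply Finset.sum_le_sum
        intro d _
        have := ArithmeticFunction.abs_moebius_le_one (n := d)
        exact_mod_cast this
    _ = ((n.divisors.filter (fun d => d ≤ X)).card : ℝ) := by simp
    _ ≤ _ := by exact_mod_cast Finset.card_filter_le _ _

/-- partial sums -/
noncomputable def St (c : ℕ → ℝ) (x : ℝ) : ℝ := ∑ n ∈ Finset.Icc 2 ⌊x⌋₊, c n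

lemma St_mono (c : ℕ → ℝ) (hc : ∀ n, 0 ≤ c n) : Monotone (St c) := fun _ _ h =>
  Finset.sum_le_sum_of_subset_of_nonneg (Finset.Icc_subset_Icc le_rfl (Nat.floor_mono h))
    fun n _ _ => hc n

lemma St_int (c : ℕ → ℝ) (a b : ℝ) : IntervalIntegrable (St c) volume a b := by
  have h : St c = fun x => St (fun n => max (c n) 0) x - St (fun n => max (-c n) 0) x := by
    funext x
    unfold St
    rw [← Finset.sum_sub_distrib]
    refine Finset.sum_congr rfl fun n _ => ?_
    exact (max_zero_sub_max_neg_zero_eq_self (c n)).symm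
  rw [h]
  exact (St_mono _ fun n => le_max_right _ _).intervalIntegrable.sub
    (St_mono _ fun n => le_max_right _ _).intervalIntegrable

lemma NX_eq (X : ℕ) : NX X = St (bX X) := rfl

section
variable {K δ : ℝ} {X : ℕ}

lemma NX_abs (hK : 0 ≤ K) (hδ : 0 ≤ δ) (hb : ∀ n : ℕ, |bX X n| ≤ K * (n : ℝ) ^ δ) {u x' : ℝ}
    (hu : 0 ≤ u) (hux : u ≤ x') : |NX X u| ≤ u * (K * x' ^ δ) := by
  rw [NX_eq]
  unfold St
  refine (Finset.abs_sum_le_sum_abs _ _).trans ?_
  have h1 : ∀ n ∈ Finset.Icc 2 ⌊u⌋₊, |bX X n| ≤ K * x' ^ δ := by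
    intro n hn
    have h2 : (n : ℝ) ≤ x' :=
      ((Nat.le_floor_iff hu).1 (Finset.mem_Icc.1 hn).2).trans hux
    exact (hb n).trans (mul_le_mul_of_nonneg_left
      (Real.rpow_le_rpow (Nat.cast_nonneg n) h2 hδ) hK)
  refine (Finset.sum_le_sum h1).trans ?_
  rw [Finset.sum_const, nsmul_eq_mul]
  apply mul_le_mul_of_nonneg_right _
    (mul_nonneg hK (Real.rpow_nonneg (hu.trans hux) _))
  rw [Nat.card_Icc]
  calc ((⌊u⌋₊ + 1 - 2 : ℕ) : ℝ) ≤ (⌊u⌋₊ : ℝ) := by
        exact_mod_cast (by omega : ⌊u⌋₊ + 1 - 2 ≤ ⌊u⌋₊)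
    _ ≤ u := Nat.floor_le hu

lemma NX_int (X : ℕ) (a b : ℝ) : IntervalIntegrable (NX X) volume a b := St_int _ _ _

noncomputable def Ax (X : ℕ) (x : ℝ) : ℝ := ∫ u in (0:ℝ)..x, NX X u

lemma gX_eq (X : ℕ) (x : ℝ) : gX X x = NX X x - 2 / x * Ax X x := rfl

lemma A_diff (hK : 0 ≤ K) (hδ : 0 ≤ δ) (hb : ∀ n : ℕ, |bX X n| ≤ K * (n : ℝ) ^ δ) {x x' : ℝ}
    (hx : 0 < x) (h : x ≤ x') :
    |2 / x' * Ax X x' - 2 / x * Ax X x| ≤ 4 * (x' - x) * (K * x' ^ δ) := by
  have hx' : 0 < x' := hx.trans_le h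
  set M : ℝ := K * x' ^ δ with hM
  have hM0 : 0 ≤ M := mul_nonneg hK (Real.rpow_nonneg hx'.le _)
  have h1 : Ax X x' - Ax X x = ∫ u in x..x', NX X u :=
    intervalIntegral.integral_interval_sub_left (NX_int _ _ _) (NX_int _ _ _)
  have a1 : |Ax X x' - Ax X x| ≤ x' * M * (x' - x) := by
    rw [h1]
    have e1 := intervalIntegral.norm_integral_le_of_norm_le_const (a := x) (b := x')
      (f := NX X) (C := x' * M) (fun u hu => by
        rw [uIoc_of_le h] at hu
        rw [Real.norm_eq_abs]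
        refine (NX_abs hK hδ hb (hx.le.trans hu.1.le) hu.2).trans ?_
        exact mul_le_mul_of_nonneg_right hu.2 hM0)
    rwa [Real.norm_eq_abs, abs_of_nonneg (sub_nonneg.2 h)] at e1
  have a2 : |Ax X x| ≤ x * M * x := by
    have e1 := intervalIntegral.norm_integral_le_of_norm_le_const (a := 0) (b := x)
      (f := NX X) (C := x * M) (fun u hu => by
        rw [uIoc_of_le hx.le] at hu
        rw [Real.norm_eq_abs]
        refine (NX_abs hK hδ hb hu.1.le (hu.2.trans h)).trans ?_
        exact mul_le_mul_of_nonneg_right hu.2 hM0)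
    rwa [Real.norm_eq_abs, sub_zero, abs_of_nonneg hx.le] at e1
  have e : 2 / x' * Ax X x' - 2 / x * Ax X x =
      2 / x' * (Ax X x' - Ax X x) - 2 * (x' - x) / (x * x') * Ax X x := by
    field_simp
    ring
  have hd : 0 ≤ x' - x := sub_nonneg.2 h
  have c1 : |2 / x' * (Ax X x' - Ax X x)| ≤ 2 * (x' - x) * M := by
    rw [abs_mul, abs_of_nonneg (by positivity : (0:ℝ) ≤ 2 / x')]
    calc 2 / x' * |Ax X x' - Ax X x| ≤ 2 / x' * (x' * M * (x' - x)) :=
          mul_le_mul_of_nonneg_left a1 (by positivity)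
      _ = 2 * (x' - x) * M := by field_simp
  have c2 : |2 * (x' - x) / (x * x') * Ax X x| ≤ 2 * (x' - x) * M := by
    rw [abs_mul, abs_of_nonneg (by positivity : (0:ℝ) ≤ 2 * (x' - x) / (x * x'))]
    calc 2 * (x' - x) / (x * x') * |Ax X x| ≤ 2 * (x' - x) / (x * x') * (x * M * x) :=
          mul_le_mul_of_nonneg_left a2 (by positivity)
      _ = 2 * (x' - x) * M * (x / x') := by field_simp
      _ ≤ 2 * (x' - x) * M * 1 := by
          apply mul_le_mul_of_nonneg_left _ (by positivity)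
          rw [div_le_one hx']
          exact h
      _ = 2 * (x' - x) * M := by ring
  rw [e]
  calc |2 / x' * (Ax X x' - Ax X x) - 2 * (x' - x) / (x * x') * Ax X x|
      ≤ |2 / x' * (Ax X x' - Ax X x)| + |2 * (x' - x) / (x * x') * Ax X x| := abs_sub _ _
    _ ≤ 4 * (x' - x) * M := by linarith

end

lemma N_sq (X : ℕ) {h L u : ℝ} (h0 : 0 < h) (h1 : h ≤ 1 / 2) (hL : Real.exp L = h⁻¹)
    (hu : u ≤ L) :
    (NX X (Real.exp (u + h)) - NX X (Real.exp u)) ^ 2 ≤
      3 * ∑ n ∈ Finset.Icc 2 ⌊Real.exp (L + h)⌋₊,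
        (Ico (Real.log n - h) (Real.log n)).indicator (fun _ => bX X n ^ 2) u := by
  classical
  set D : Finset ℕ := Finset.Icc 2 ⌊Real.exp (u + h)⌋₊ \ Finset.Icc 2 ⌊Real.exp u⌋₊ with hD
  have hle : Real.exp u ≤ Real.exp (u + h) := Real.exp_le_exp.2 (by linarith)
  have hsub : Finset.Icc 2 ⌊Real.exp u⌋₊ ⊆ Finset.Icc 2 ⌊Real.exp (u + h)⌋₊ :=
    Finset.Icc_subset_Icc le_rfl (Nat.floor_mono hle)
  have hcard : NX X (Real.exp (u + h)) - NX X (Real.exp u) = ∑ n ∈ D, bX X n := by
    unfold NX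
    rw [hD, ← Finset.sum_sdiff hsub, add_sub_cancel_right]
  have hmem : ∀ n ∈ D, 2 ≤ n ∧ Real.exp u < n ∧ (n : ℝ) ≤ Real.exp (u + h) ∧
      ⌊Real.exp u⌋₊ < n ∧ n ≤ ⌊Real.exp (u + h)⌋₊ := by
    intro n hn
    obtain ⟨n1, n2⟩ := Finset.mem_sdiff.1 hn
    obtain ⟨n5, n6⟩ := Finset.mem_Icc.1 n1
    have n7 : ⌊Real.exp u⌋₊ < n := by
      by_contra hc
      exact n2 (Finset.mem_Icc.2 ⟨n5, not_lt.1 hc⟩)
    exact ⟨n5, (Nat.floor_lt (Real.exp_pos _).le).1 n7, (Nat.le_floor_iff (Real.exp_pos _).le).1 n6,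
      n7, n6⟩
  have hc3 : (D.card : ℝ) ≤ 3 := by
    have c1 : D.card ≤ ⌊Real.exp (u + h)⌋₊ - ⌊Real.exp u⌋₊ := by
      rw [← Nat.card_Ioc]
      apply Finset.card_le_card
      intro n hn
      obtain ⟨-, -, -, n7, n8⟩ := hmem n hn
      exact Finset.mem_Ioc.2 ⟨n7, n8⟩
    have c2 : ⌊Real.exp u⌋₊ ≤ ⌊Real.exp (u + h)⌋₊ := Nat.floor_mono hle
    have c3 : (D.card : ℝ) ≤ (⌊Real.exp (u + h)⌋₊ : ℝ) - (⌊Real.exp u⌋₊ : ℝ) := by
      rw [← Nat.cast_sub c2]
      exact_mod_cast c1
    have c4 : (⌊Real.exp (u + h)⌋₊ : ℝ) ≤ Real.exp (u + h) := Nat.floor_le (Real.exp_pos _).le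
    have c5 : Real.exp u < ⌊Real.exp u⌋₊ + 1 := Nat.lt_floor_add_one _
    have c6 : Real.exp (u + h) - Real.exp u ≤ 2 := by
      have d1 : Real.exp (u + h) - Real.exp u = Real.exp u * (Real.exp h - 1) := by
        rw [Real.exp_add]; ring
      have d2 : Real.exp u ≤ h⁻¹ := by
        rw [← hL]
        exact Real.exp_le_exp.2 hu
      have d3 := S29.exp_sub_one_le h0.le h1
      have d4 : 0 ≤ Real.exp h - 1 := by
        have := Real.add_one_le_exp h
        linarith
      calc Real.exp (u + h) - Real.exp u = Real.exp u * (Real.exp h - 1) := d1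
        _ ≤ h⁻¹ * (2 * h) := mul_le_mul d2 d3 d4 (by positivity)
        _ = 2 := by field_simp
    linarith
  have hsum : ∑ n ∈ D, bX X n ^ 2 ≤ ∑ n ∈ Finset.Icc 2 ⌊Real.exp (L + h)⌋₊,
        (Ico (Real.log n - h) (Real.log n)).indicator (fun _ => bX X n ^ 2) u := by
    have s2 : D ⊆ Finset.Icc 2 ⌊Real.exp (L + h)⌋₊ := by
      refine Finset.sdiff_subset.trans (Finset.Icc_subset_Icc le_rfl (Nat.floor_mono ?_))
      exact Real.exp_le_exp.2 (by linarith)
    refine le_trans ?_ (Finset.sum_le_sum_of_subset_of_nonneg s2 (fun n _ _ =>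
      indicator_nonneg (fun _ _ => sq_nonneg _) _))
    apply Finset.sum_le_sum
    intro n hn
    obtain ⟨n1, n2, n3, -, -⟩ := hmem n hn
    have hn0 : (0 : ℝ) < n := (Real.exp_pos _).trans n2
    rw [indicator_of_mem]
    constructor
    · have := (Real.log_le_iff_le_exp hn0).2 n3
      linarith
    · exact (Real.lt_log_iff_exp_lt hn0).2 n2
  rw [hcard]
  have h5 : (∑ n ∈ D, bX X n) ^ 2 ≤ (D.card : ℝ) * ∑ n ∈ D, bX X n ^ 2 :=
    sq_sum_le_card_mul_sum_sq
  have h6 : 0 ≤ ∑ n ∈ D, bX X n ^ 2 := Finset.sum_nonneg fun n _ => sq_nonneg _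
  calc (∑ n ∈ D, bX X n) ^ 2 ≤ (D.card : ℝ) * ∑ n ∈ D, bX X n ^ 2 := h5
    _ ≤ 3 * ∑ n ∈ D, bX X n ^ 2 := mul_le_mul_of_nonneg_right hc3 h6
    _ ≤ _ := mul_le_mul_of_nonneg_left hsum (by norm_num)

lemma sum_S {a a' K : ℝ} (ha : 0 < a') {X : ℕ} (hX : 1 ≤ X) (N : ℕ)
    (hb : ∀ n : ℕ, 2 ≤ n → bX X n ^ 2 * S29.wq a n ≤ K ^ 2 * S29.wq a' n) :
    ∑ n ∈ Finset.Icc 2 N, bX X n ^ 2 * S29.wq a n ≤ K ^ 2 * (S29.Vq a' X / a') := by
  have h1 : ∑ n ∈ Finset.Icc 2 N, bX X n ^ 2 * S29.wq a n ≤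
      ∑ n ∈ Finset.Ico (X + 1) (X + 1 + N), K ^ 2 * S29.wq a' n := by
    have e1 : ∀ n ∈ Finset.Icc 2 N, bX X n ^ 2 * S29.wq a n ≤
        if X < n then K ^ 2 * S29.wq a' n else 0 := by
      intro n hn
      have hn2 := (Finset.mem_Icc.1 hn).1
      split_ifs with hc
      · exact hb n hn2
      · rw [bX_zero_of_le X n hn2 (not_lt.1 hc)]
        simp
    refine (Finset.sum_le_sum e1).trans ?_
    rw [← Finset.sum_filter]
    apply Finset.sum_le_sum_of_subset_of_nonneg
    · intro n hn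
      obtain ⟨n1, n2⟩ := Finset.mem_filter.1 hn
      obtain ⟨n3, n4⟩ := Finset.mem_Icc.1 n1
      exact Finset.mem_Ico.2 ⟨by omega, by omega⟩
    · intro n _ _
      have : 0 < S29.wq a' n := Real.exp_pos _
      positivity
  refine h1.trans ?_
  rw [← Finset.mul_sum]
  apply mul_le_mul_of_nonneg_left _ (sq_nonneg _)
  rw [Finset.sum_Ico_eq_sum_range]
  have e : X + 1 + N - (X + 1) = N := by omega
  rw [e]
  refine (S29.tele_sum ha hX _).trans ?_
  apply div_le_div_of_nonneg_right _ ha.le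
  have : 0 < S29.Vq a' (X + N) := Real.exp_pos _
  linarith

end S12

open S12 in
theorem xd_of (hXB : ST_XB) : ST_XD := by
  intro ε hε
  obtain ⟨hε0, hε1⟩ := hε
  set δ : ℝ := ε / 4 with hδ
  have hδ0 : 0 < δ := by positivity
  obtain ⟨K, hK1, hKd⟩ := Pool.Agent.Helper13.Hall.divisor_bound hδ0
  have hK0 : 0 < K := by linarith
  have hb : ∀ X n : ℕ, |bX X n| ≤ K * (n : ℝ) ^ δ := fun X n => (bX_abs X n).trans (hKd n)
  set a : ℝ := 2 * ε with ha
  set a' : ℝ := 3 * ε / 2 with ha'
  have ha0 : 0 < a := by positivity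
  have ha1 : a < 1 := by linarith
  have ha'0 : 0 < a' := by positivity
  have ha'1 : a' < 1 := by linarith
  have h1a : 0 < 1 - a' := by linarith
  set C : ℝ := 1600 * Real.exp 7 + 512 * K ^ 2 / (1 - a') + 18 * K ^ 2 / a' with hC
  have hC1 : 0 ≤ 1600 * Real.exp 7 := by positivity
  have hC2 : 0 ≤ 512 * K ^ 2 / (1 - a') := by positivity
  have hC3 : 0 ≤ 18 * K ^ 2 / a' := by positivity
  refine ⟨C, ?_⟩
  intro X hX h ⟨h0, hh⟩ σ ⟨hσ, hσ5⟩
  obtain ⟨hB, hmeas, hzero⟩ := hXB X hX
  set B : ℝ := 10 * X with hBdef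
  have hX1 : (1 : ℝ) ≤ X := by exact_mod_cast hX
  have hB0 : 0 < B := by positivity
  set Δ : ℝ → ℝ := fun u => gX X (Real.exp (u + h)) - gX X (Real.exp u) with hΔ
  have hΔB : ∀ u, |Δ u| ≤ 2 * B := by
    intro u
    have e1 := hB _ (Real.exp_pos (u + h))
    have e2 := hB _ (Real.exp_pos u)
    calc |Δ u| ≤ |gX X (Real.exp (u + h))| + |gX X (Real.exp u)| := abs_sub _ _
      _ ≤ 2 * B := by linarith
  have e0 : Real.exp (1 / 2 : ℝ) < 2 := by
    have := Real.exp_one_lt_d9
    have e : Real.exp (1 / 2 : ℝ) * Real.exp (1 / 2 : ℝ) = Real.exp 1 := by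
      rw [← Real.exp_add]; norm_num
    have := Real.exp_pos (1 / 2 : ℝ)
    nlinarith
  have hΔ0 : ∀ u, u + h ≤ 1 / 2 → Δ u = 0 := by
    intro u hu
    have e1 : Real.exp (u + h) < 2 := lt_of_le_of_lt (Real.exp_le_exp.2 hu) e0
    have e2 : Real.exp u < 2 := lt_of_le_of_lt (Real.exp_le_exp.2 (by linarith)) e0
    simp only [hΔ]
    rw [hzero _ (Real.exp_pos _) e1, hzero _ (Real.exp_pos _) e2, sub_zero]
  have hms : Measurable (fun u : ℝ => Δ u * Real.exp (-(σ * u))) := by
    have m1 : Measurable (fun u : ℝ => gX X (Real.exp (u + h))) :=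
      hmeas.comp (measurable_id.add_const h)
    exact (m1.sub hmeas).mul (by fun_prop)
  -- the trivial majorants
  have iG1 : Integrable ((Ioi (-(1 / 2) : ℝ)).indicator
      (fun u => 2 * B * Real.exp 3 * Real.exp (-(1 / 2) * u))) := by
    rw [integrable_indicator_iff measurableSet_Ioi]
    exact (integrableOn_exp_mul_Ioi (by norm_num) _).const_mul _
  have iG2 : Integrable ((Ioi (-(1 / 2) : ℝ)).indicator
      (fun u => 4 * B ^ 2 * Real.exp 6 * Real.exp (-1 * u))) := by
    rw [integrable_indicator_iff measurableSet_Ioi]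
    exact (integrableOn_exp_mul_Ioi (by norm_num) _).const_mul _
  have key0 : ∀ u, |Δ u * Real.exp (-(σ * u))| ≤ (Ioi (-(1 / 2) : ℝ)).indicator
      (fun u => 2 * B * Real.exp 3 * Real.exp (-(1 / 2) * u)) u := by
    intro u
    rcases le_or_gt u (-(1 / 2)) with hu | hu
    · rw [hΔ0 u (by linarith), indicator_of_notMem (show u ∉ Ioi (-(1 / 2) : ℝ) from not_lt.2 hu),
        zero_mul, abs_zero]
    · rw [indicator_of_mem (show u ∈ Ioi (-(1 / 2) : ℝ) from hu), abs_mul,
        abs_of_pos (Real.exp_pos _), mul_assoc, ← Real.exp_add]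
      apply mul_le_mul (hΔB u) _ (Real.exp_pos _).le (by positivity)
      apply Real.exp_le_exp.2
      rcases le_or_gt u 0 with h3 | h3
      · nlinarith
      · nlinarith
  have key1 : ∀ u, (Δ u * Real.exp (-(σ * u))) ^ 2 ≤ (Ioi (-(1 / 2) : ℝ)).indicator
      (fun u => 4 * B ^ 2 * Real.exp 6 * Real.exp (-1 * u)) u := by
    intro u
    have h3 := key0 u
    by_cases hu : u ∈ Ioi (-(1 / 2) : ℝ)
    · rw [indicator_of_mem hu] at h3 ⊢
      have h4 : (Δ u * Real.exp (-(σ * u))) ^ 2 ≤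
          (2 * B * Real.exp 3 * Real.exp (-(1 / 2) * u)) ^ 2 := by
        rw [← sq_abs]
        exact pow_le_pow_left₀ (abs_nonneg _) h3 2
      have h5 : (2 * B * Real.exp 3 * Real.exp (-(1 / 2) * u)) ^ 2 =
          4 * B ^ 2 * Real.exp 6 * Real.exp (-1 * u) := by
        have f1 : Real.exp 6 = Real.exp 3 * Real.exp 3 := by
          rw [← Real.exp_add]; norm_num
        have f2 : Real.exp (-1 * u) = Real.exp (-(1 / 2) * u) * Real.exp (-(1 / 2) * u) := by
          rw [← Real.exp_add]; ring_nf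
        rw [f1, f2]
        ring
      rwa [h5] at h4
    · rw [indicator_of_notMem hu] at h3 ⊢
      have h4 : Δ u * Real.exp (-(σ * u)) = 0 := abs_nonpos_iff.1 h3
      rw [h4]
      norm_num
  have iq : Integrable (fun u : ℝ => (Δ u * Real.exp (-(σ * u))) ^ 2) := by
    refine iG2.mono' (hms.pow_const 2).aestronglyMeasurable (Eventually.of_forall fun u => ?_)
    rw [Real.norm_of_nonneg (sq_nonneg _)]
    exact key1 u
  refine ⟨iG1.mono' hms.aestronglyMeasurable (Eventually.of_forall key0), iq, ?_⟩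
  have hXε : 0 ≤ h * (X : ℝ) ^ (-ε) := by positivity
  have hhε : 0 ≤ h ^ (1 + ε) := by positivity
  have hXh : 0 ≤ (X : ℝ) ^ 2 * h ^ (1 + 2 * ε) := by positivity
  rcases lt_or_ge (1 / 2) h with hbig | h1
  · -- large `h`
    have b0 : ∫ u : ℝ, (Δ u * Real.exp (-(σ * u))) ^ 2 ≤
        ∫ u : ℝ, (Ioi (-(1 / 2) : ℝ)).indicator
          (fun u => 4 * B ^ 2 * Real.exp 6 * Real.exp (-1 * u)) u := integral_mono iq iG2 key1
    have b1 : ∫ u : ℝ, (Ioi (-(1 / 2) : ℝ)).indicator
          (fun u => 4 * B ^ 2 * Real.exp 6 * Real.exp (-1 * u)) u ≤ 400 * Real.exp 7 * X ^ 2 := by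
      rw [integral_indicator measurableSet_Ioi, integral_const_mul,
        integral_exp_mul_Ioi (by norm_num)]
      have f1 : -Real.exp (-1 * -(1 / 2)) / -1 = Real.exp (1 / 2) := by
        rw [neg_div_neg_eq, div_one]
        norm_num
      rw [f1, hBdef]
      have f2 : Real.exp 6 * Real.exp (1 / 2) ≤ Real.exp 7 := by
        rw [← Real.exp_add]
        apply Real.exp_le_exp.2
        norm_num
      have f3 : 4 * (10 * (X : ℝ)) ^ 2 * Real.exp 6 * Real.exp (1 / 2) =
          400 * (X : ℝ) ^ 2 * (Real.exp 6 * Real.exp (1 / 2)) := by ring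
      rw [f3]
      have f4 := mul_le_mul_of_nonneg_left f2 (by positivity : (0:ℝ) ≤ 400 * (X : ℝ) ^ 2)
      linarith
    have b2 : (1 / 4 : ℝ) ≤ h ^ (1 + 2 * ε) := by
      calc (1 / 4 : ℝ) = (1 / 2 : ℝ) ^ (2 : ℝ) := by norm_num
        _ ≤ h ^ (2 : ℝ) := Real.rpow_le_rpow (by norm_num) hbig.le (by norm_num)
        _ ≤ h ^ (1 + 2 * ε) := Real.rpow_le_rpow_of_exponent_ge h0 hh (by linarith)
    have b3 : 400 * Real.exp 7 * (X : ℝ) ^ 2 ≤
        1600 * Real.exp 7 * ((X : ℝ) ^ 2 * h ^ (1 + 2 * ε)) := by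
      have f1 : 0 ≤ 1600 * Real.exp 7 * (X : ℝ) ^ 2 := by positivity
      nlinarith [mul_le_mul_of_nonneg_left b2 f1]
    have b4 : 1600 * Real.exp 7 * ((X : ℝ) ^ 2 * h ^ (1 + 2 * ε)) ≤
        C * (h * (X : ℝ) ^ (-ε) + h ^ (1 + ε) + (X : ℝ) ^ 2 * h ^ (1 + 2 * ε)) := by
      apply mul_le_mul _ _ hXh (by linarith)
      · rw [hC]; linarith
      · linarith
    exact (b0.trans b1).trans (b3.trans b4)
  · -- small `h`
    set L : ℝ := -Real.log h with hLdef
    have hL : Real.exp L = h⁻¹ := by rw [hLdef, Real.exp_neg, Real.exp_log h0]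
    set S := Finset.Icc 2 ⌊Real.exp (L + h)⌋₊ with hS
    set F1 : ℝ → ℝ := (Ioi L).indicator (fun u => 4 * B ^ 2 * Real.exp (-(1 + a) * u)) with hF1
    set F2 : ℝ → ℝ := (Iic L).indicator
      (fun u => 512 * K ^ 2 * h ^ 2 * Real.exp ((1 - a') * u)) with hF2
    set F3 : ℕ → ℝ → ℝ := fun n => (Ico (Real.log n - h) (Real.log n)).indicator
      (fun u => bX X n ^ 2 * (6 * Real.exp (-(1 + a) * u))) with hF3
    have hF1n : ∀ u, 0 ≤ F1 u := fun u => indicator_nonneg (fun _ _ => by positivity) _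
    have hF2n : ∀ u, 0 ≤ F2 u := fun u => indicator_nonneg (fun _ _ => by positivity) _
    have hF3n : ∀ n u, 0 ≤ F3 n u := fun n u => indicator_nonneg (fun _ _ => by positivity) _
    have key : ∀ u, (Δ u * Real.exp (-(σ * u))) ^ 2 ≤ F1 u + F2 u + ∑ n ∈ S, F3 n u := by
      intro u
      have hsn : 0 ≤ ∑ n ∈ S, F3 n u := Finset.sum_nonneg (fun n _ => hF3n n u)
      rcases le_or_gt u 0 with hu | hu
      · rw [hΔ0 u (by linarith), zero_mul]
        have := hF1n u
        have := hF2n u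
        simp only [ne_eq, OfNat.ofNat_ne_zero, not_false_eq_true, zero_pow]
        linarith
      · have hE : Real.exp (-(σ * u)) ^ 2 ≤ Real.exp (-(1 + a) * u) := by
          rw [sq, ← Real.exp_add]
          apply Real.exp_le_exp.2
          have : (1 / 2 + ε) * u ≤ σ * u := mul_le_mul_of_nonneg_right hσ hu.le
          rw [ha]
          linarith
        have hEp : 0 < Real.exp (-(1 + a) * u) := Real.exp_pos _
        rw [mul_pow]
        rcases lt_or_ge L u with hLu | hLu
        · have e1 : F1 u = 4 * B ^ 2 * Real.exp (-(1 + a) * u) := by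
            rw [hF1, indicator_of_mem (show u ∈ Ioi L from hLu)]
          have e2 : Δ u ^ 2 ≤ 4 * B ^ 2 := by
            have := hΔB u
            rw [← sq_abs]
            nlinarith [abs_nonneg (Δ u)]
          have e3 : Δ u ^ 2 * Real.exp (-(σ * u)) ^ 2 ≤ 4 * B ^ 2 * Real.exp (-(1 + a) * u) :=
            mul_le_mul e2 hE (sq_nonneg _) (by positivity)
          have := hF2n u
          linarith
        · have e1 : F2 u = 512 * K ^ 2 * h ^ 2 * Real.exp ((1 - a') * u) := by
            rw [hF2, indicator_of_mem (show u ∈ Iic L from hLu)]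
          have e2 : ∑ n ∈ S, F3 n u = 6 * (∑ n ∈ S,
              (Ico (Real.log n - h) (Real.log n)).indicator (fun _ => bX X n ^ 2) u) *
                Real.exp (-(1 + a) * u) := by
            rw [Finset.mul_sum, Finset.sum_mul]
            apply Finset.sum_congr rfl
            intro n _
            simp only [hF3]
            by_cases hn : u ∈ Ico (Real.log n - h) (Real.log n)
            · rw [indicator_of_mem hn, indicator_of_mem hn]
              ring
            · rw [indicator_of_notMem hn, indicator_of_notMem hn]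
              ring
          have e3 := N_sq X h0 h1 hL hLu
          have hxx : Real.exp u ≤ Real.exp (u + h) := Real.exp_le_exp.2 (by linarith)
          have e4 := A_diff hK0.le hδ0.le (hb X) (Real.exp_pos u) hxx
          set P : ℝ := NX X (Real.exp (u + h)) - NX X (Real.exp u) with hP
          set Q : ℝ := 2 / Real.exp (u + h) * Ax X (Real.exp (u + h)) -
            2 / Real.exp u * Ax X (Real.exp u) with hQ
          have e5 : Δ u = P - Q := by
            simp only [hΔ, gX_eq, hP, hQ]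
            ring
          have e6 : Δ u ^ 2 ≤ 2 * P ^ 2 + 2 * Q ^ 2 := by
            rw [e5]
            nlinarith [sq_nonneg (P + Q)]
          have e7 : Real.exp (u + h) - Real.exp u ≤ 2 * h * Real.exp u := by
            have d1 : Real.exp (u + h) - Real.exp u = Real.exp u * (Real.exp h - 1) := by
              rw [Real.exp_add]; ring
            rw [d1]
            have := mul_le_mul_of_nonneg_left (S29.exp_sub_one_le h0.le h1) (Real.exp_pos u).le
            linarith
          have e7b : Real.exp (u + h) ^ δ ≤ 2 * Real.exp (δ * u) := by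
            rw [← Real.exp_mul]
            have d1 : (u + h) * δ = δ * u + h * δ := by ring
            rw [d1, Real.exp_add, mul_comm]
            apply mul_le_mul_of_nonneg_right _ (Real.exp_pos _).le
            refine le_trans (Real.exp_le_exp.2 ?_) e0.le
            have d2 : h * δ ≤ 1 / 2 * 1 := mul_le_mul h1 (by linarith) hδ0.le (by norm_num)
            linarith
          have e8 : Q ^ 2 ≤ 256 * K ^ 2 * h ^ 2 * (Real.exp u ^ 2 * Real.exp (2 * δ * u)) := by
            have d1 : |Q| ≤ 16 * K * h * Real.exp u * Real.exp (δ * u) := by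
              refine e4.trans ?_
              have g1 : 4 * (Real.exp (u + h) - Real.exp u) ≤ 8 * h * Real.exp u := by linarith
              have g2 : K * Real.exp (u + h) ^ δ ≤ K * (2 * Real.exp (δ * u)) :=
                mul_le_mul_of_nonneg_left e7b hK0.le
              have g3 : 4 * (Real.exp (u + h) - Real.exp u) * (K * Real.exp (u + h) ^ δ) ≤
                  8 * h * Real.exp u * (K * (2 * Real.exp (δ * u))) :=
                mul_le_mul g1 g2 (by positivity) (by positivity)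
              linarith
            rw [← sq_abs]
            calc |Q| ^ 2 ≤ (16 * K * h * Real.exp u * Real.exp (δ * u)) ^ 2 :=
                  pow_le_pow_left₀ (abs_nonneg _) d1 2
              _ = 256 * K ^ 2 * h ^ 2 * (Real.exp u ^ 2 * Real.exp (2 * δ * u)) := by
                  have f2 : Real.exp (2 * δ * u) = Real.exp (δ * u) * Real.exp (δ * u) := by
                    rw [← Real.exp_add]; ring_nf
                  rw [f2]
                  ring
          have e9 : Real.exp u ^ 2 * Real.exp (2 * δ * u) * Real.exp (-(1 + a) * u) =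
              Real.exp ((1 - a') * u) := by
            rw [sq, ← Real.exp_add, ← Real.exp_add, ← Real.exp_add]
            congr 1
            rw [hδ, ha, ha']
            ring
          set Z : ℝ := ∑ n ∈ S, (Ico (Real.log n - h) (Real.log n)).indicator
            (fun _ => bX X n ^ 2) u with hZ
          have hZ0 : 0 ≤ Z := Finset.sum_nonneg (fun n _ =>
            indicator_nonneg (fun _ _ => sq_nonneg _) _)
          have e10 : Δ u ^ 2 * Real.exp (-(σ * u)) ^ 2 ≤
              (6 * Z + 512 * K ^ 2 * h ^ 2 * (Real.exp u ^ 2 * Real.exp (2 * δ * u))) *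
                Real.exp (-(1 + a) * u) := by
            apply mul_le_mul _ hE (sq_nonneg _) (by positivity)
            linarith
          have e11 : (6 * Z + 512 * K ^ 2 * h ^ 2 * (Real.exp u ^ 2 * Real.exp (2 * δ * u))) *
                Real.exp (-(1 + a) * u) =
              6 * Z * Real.exp (-(1 + a) * u) +
                512 * K ^ 2 * h ^ 2 * Real.exp ((1 - a') * u) := by
            rw [← e9]
            ring
          have := hF1n u
          rw [e1, e2]
          linarith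
    have hneg : -(1 + a) < 0 := by linarith
    have i1 : Integrable F1 := by
      rw [hF1, integrable_indicator_iff measurableSet_Ioi]
      exact (integrableOn_exp_mul_Ioi hneg L).const_mul _
    have i2 : Integrable F2 := by
      rw [hF2, integrable_indicator_iff measurableSet_Iic]
      exact (integrableOn_exp_mul_Iic h1a L).const_mul _
    have i3 : ∀ n, Integrable (F3 n) := by
      intro n
      simp only [hF3]
      rw [integrable_indicator_iff measurableSet_Ico]
      have : IntegrableOn (fun u => bX X n ^ 2 * (6 * Real.exp (-(1 + a) * u)))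
          (Icc (Real.log n - h) (Real.log n)) := by
        apply Continuous.integrableOn_Icc
        fun_prop
      exact this.mono_set Ico_subset_Icc_self
    have i3s : Integrable (fun u => ∑ n ∈ S, F3 n u) := integrable_finsetSum _ (fun n _ => i3 n)
    have iF : Integrable (fun u => F1 u + F2 u + ∑ n ∈ S, F3 n u) := (i1.add i2).add i3s
    have b0 : ∫ u : ℝ, (Δ u * Real.exp (-(σ * u))) ^ 2 ≤
        ∫ u : ℝ, (F1 u + F2 u + ∑ n ∈ S, F3 n u) := integral_mono iq iF key
    have b1 : ∫ u : ℝ, F1 u ≤ 400 * ((X : ℝ) ^ 2 * h ^ (1 + 2 * ε)) := by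
      rw [hF1, integral_indicator measurableSet_Ioi, integral_const_mul,
        integral_exp_mul_Ioi hneg]
      have e1 : Real.exp (-(1 + a) * L) = h ^ (1 + 2 * ε) := by
        rw [Real.rpow_def_of_pos h0, hLdef]
        congr 1
        rw [ha]
        ring
      rw [e1, neg_div_neg_eq]
      have e2 : h ^ (1 + 2 * ε) / (1 + a) ≤ h ^ (1 + 2 * ε) :=
        div_le_self (by positivity) (by linarith)
      have e3 : 4 * B ^ 2 = 400 * (X : ℝ) ^ 2 := by
        rw [hBdef]
        ring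
      rw [e3]
      have := mul_le_mul_of_nonneg_left e2 (by positivity : (0:ℝ) ≤ 400 * (X : ℝ) ^ 2)
      linarith
    have b2 : ∫ u : ℝ, F2 u ≤ 512 * K ^ 2 / (1 - a') * h ^ (1 + ε) := by
      rw [hF2, integral_indicator measurableSet_Iic, integral_const_mul,
        integral_exp_mul_Iic h1a]
      have e1 : h ^ 2 * Real.exp ((1 - a') * L) ≤ h ^ (1 + ε) := by
        have f1 : h ^ 2 = Real.exp (2 * Real.log h) := by
          rw [mul_comm, Real.exp_mul, Real.exp_log h0]
          norm_num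
        rw [Real.rpow_def_of_pos h0, f1, ← Real.exp_add, hLdef]
        apply Real.exp_le_exp.2
        have f2 : Real.log h ≤ 0 := Real.log_nonpos h0.le hh
        rw [ha']
        nlinarith [mul_nonneg_of_nonpos_of_nonpos f2 (by linarith : -(ε / 2) ≤ 0)]
      have e2 : 512 * K ^ 2 * h ^ 2 * (Real.exp ((1 - a') * L) / (1 - a')) =
          512 * K ^ 2 / (1 - a') * (h ^ 2 * Real.exp ((1 - a') * L)) := by
        field_simp
      rw [e2]
      exact mul_le_mul_of_nonneg_left e1 hC2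
    have b3 : ∫ u : ℝ, (∑ n ∈ S, F3 n u) ≤ 18 * K ^ 2 / a' * (h * (X : ℝ) ^ (-ε)) := by
      rw [integral_finsetSum _ (fun n _ => i3 n)]
      have c1 : ∀ n ∈ S, ∫ u : ℝ, F3 n u ≤ 18 * h * (bX X n ^ 2 * S29.wq a n) := by
        intro n _
        simp only [hF3]
        rw [integral_indicator measurableSet_Ico, integral_const_mul]
        have := mul_le_mul_of_nonneg_left (S29.int_bd ha0 ha1 h0 h1 n) (sq_nonneg (bX X n))
        linarith
      refine (Finset.sum_le_sum c1).trans ?_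
      rw [← Finset.mul_sum]
      have c2 : ∑ n ∈ S, bX X n ^ 2 * S29.wq a n ≤ K ^ 2 * (S29.Vq a' X / a') := by
        apply sum_S ha'0 hX
        intro n hn
        have hn0 : (0 : ℝ) < n := by exact_mod_cast (by omega : 0 < n)
        have d1 : |bX X n| ≤ K * Real.exp (δ * Real.log n) := by
          have := hb X n
          rwa [Real.rpow_def_of_pos hn0, mul_comm (Real.log n)] at this
        have d2 : bX X n ^ 2 ≤ (K * Real.exp (δ * Real.log n)) ^ 2 := by
          rw [← sq_abs]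
          exact pow_le_pow_left₀ (abs_nonneg _) d1 2
        have d3 : (K * Real.exp (δ * Real.log n)) ^ 2 * S29.wq a n = K ^ 2 * S29.wq a' n := by
          unfold S29.wq
          rw [mul_pow, sq (Real.exp _), ← Real.exp_add, mul_assoc, ← Real.exp_add]
          congr 2
          rw [hδ, ha, ha']
          ring
        rw [← d3]
        exact mul_le_mul_of_nonneg_right d2 (Real.exp_pos _).le
      have c3 : S29.Vq a' X ≤ (X : ℝ) ^ (-ε) := by
        have hX0 : (0 : ℝ) < X := by linarith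
        rw [Real.rpow_def_of_pos hX0]
        unfold S29.Vq
        apply Real.exp_le_exp.2
        have := Real.log_nonneg hX1
        rw [ha']
        nlinarith [mul_nonneg this hε0.le]
      calc 18 * h * ∑ n ∈ S, bX X n ^ 2 * S29.wq a n ≤ 18 * h * (K ^ 2 * (S29.Vq a' X / a')) :=
            mul_le_mul_of_nonneg_left c2 (by positivity)
        _ = 18 * K ^ 2 / a' * (h * S29.Vq a' X) := by
            field_simp
        _ ≤ 18 * K ^ 2 / a' * (h * (X : ℝ) ^ (-ε)) :=
            mul_le_mul_of_nonneg_left (mul_le_mul_of_nonneg_left c3 h0.le) hC3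
    have b4 : ∫ u : ℝ, (F1 u + F2 u + ∑ n ∈ S, F3 n u) =
        (∫ u : ℝ, F1 u) + (∫ u : ℝ, F2 u) + ∫ u : ℝ, (∑ n ∈ S, F3 n u) := by
      have q1 : ∫ u : ℝ, (F1 u + F2 u + ∑ n ∈ S, F3 n u) =
          (∫ u : ℝ, (F1 u + F2 u)) + ∫ u : ℝ, (∑ n ∈ S, F3 n u) := integral_add (i1.add i2) i3s
      have q2 : ∫ u : ℝ, (F1 u + F2 u) = (∫ u : ℝ, F1 u) + (∫ u : ℝ, F2 u) := integral_add i1 i2
      rw [q1, q2]
    refine b0.trans ?_
    rw [b4]
    have hexp : (1 : ℝ) ≤ Real.exp 7 := Real.one_le_exp (by norm_num)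
    have g1 : 400 * ((X : ℝ) ^ 2 * h ^ (1 + 2 * ε)) ≤ C * ((X : ℝ) ^ 2 * h ^ (1 + 2 * ε)) := by
      apply mul_le_mul_of_nonneg_right _ hXh
      rw [hC]
      linarith
    have g2 : 512 * K ^ 2 / (1 - a') * h ^ (1 + ε) ≤ C * h ^ (1 + ε) := by
      apply mul_le_mul_of_nonneg_right _ hhε
      rw [hC]
      linarith
    have g3 : 18 * K ^ 2 / a' * (h * (X : ℝ) ^ (-ε)) ≤ C * (h * (X : ℝ) ^ (-ε)) := by
      apply mul_le_mul_of_nonneg_right _ hXε
      rw [hC]
      linarith
    linarith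

end Pool.Agent.Helper57.QZ
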